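import Mathlib
import Pool.Agent.Lib.MP_6ec7bd_co.Defs
import Pool.Agent.Lib.MP_6ec7bd_co.Proof
import Pool.Agent.Lib.MP_6ec7bd_co.LT.Main

/-!
# The conjecture on `A_v(0,d)`: false with the threshold `2^(2|v|+1)`, true with `2^(24|v|)`

For `v = 1 0^j` and `d = 2^(3j-1) - 1` one has `A_v(0,d) = 2^j > C_v d + B_v`, so the threshold
`2^(2|v|+1)` of Q1 is too small as soon as `j ≥ 5`, and no threshold below `2^(3|v|-4)` is possible.
With the threshold `2^(24|v|)` the conjecture is true for every pattern other than `11`,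
the equality clause and the optimality of the additive constant `B_v` included.
-/

open Pool.Agent.Lib.MP_6ec7bd_co

namespace Pool.Agent.Results.MP_6ec7bd_co.CorrectedConjecture

/-- The statement of Q1 is false. Every threshold function `T` for the inequality satisfies
`T(m) ≥ 2^(3m-4)` for `m ≥ 2`. With the threshold `2^(24|v|)` in place of `2^(2|v|+1)` the statement
of Q1 is true: for every `v ∈ V` other than `11` the pair `(x_min, y_min)` exists and for every
`d ≥ 2^(24|v|)` (where `A_v(0,d)` is a minimum over a nonempty set) one has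
`A_v(0,d) ≤ C_v d + B_v`, with equality if and only if `d = 2^j (2^k + 1)` for some `k ≥ 2|v| - 2`;
and `B_v` is the least real `c` with `A_v(0,d) ≤ C_v d + c` for all large `d`. -/
theorem result :
    ¬ Q1 ∧
    (∀ T : ℕ → ℕ, LinearBound T → ∀ m, 2 ≤ m → 2 ^ (3 * m - 4) ≤ T m) ∧
    (∀ v ∈ V, v ≠ [true, true] → (∃ x y, IsLeastPair v x y) ∧
      (∀ d, 1 ≤ d → 1 ≤ A v d) ∧
      ∀ x y, IsLeastPair v x y →
        (∀ d, 2 ^ (24 * v.length) ≤ d →
          (A v d : ℚ) ≤ C v x * d + B v x y ∧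
          ((A v d : ℚ) = C v x * d + B v x y ↔
            ∃ k, 2 * v.length - 2 ≤ k ∧ d = 2 ^ trail v * (2 ^ k + 1))) ∧
        IsLeast {c : ℝ | ∀ᶠ d : ℕ in Filter.atTop, (A v d : ℝ) ≤ (C v x : ℝ) * d + c}
          (B v x y : ℝ)) :=
  ⟨not_Q1, threshold, fun v hv hne =>
    ⟨(LT.mainQ v hv hne).1, fun d hd => LT.mainA v hv d hd, fun x y hxy =>
      ⟨(LT.mainQ v hv hne).2 x y hxy, LT.opt _ LT.mainQ v hv hne x y hxy⟩⟩⟩

end Pool.Agent.Results.MP_6ec7bd_co.CorrectedConjecture
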